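import Pool.Agent.W_MP_7483c9_co.Upper
import Pool.Agent.W_MP_7483c9_co.Lower

set_option autoImplicit false

namespace Pool.Agent.Results.MP_7483c9_co.LargeOrders

/-- For every `n > 10^8` with `n ≡ 2 (mod 4)`, a binary code of length `n - 1` and minimum
distance at least `(n - 2) / 2` has at most `2 n` words, and if a symmetric conference matrix of
order `n` exists then such a code with exactly `2 n` words exists; that is,
`A(n - 1, (n - 2) / 2) = 2 n`. -/
theorem result (n : ℕ) (hn : 10 ^ 8 < n) (hmod : n % 4 = 2) :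
    (∀ code : Finset (Fin (n - 1) → Bool),
        (∀ x ∈ code, ∀ y ∈ code, x ≠ y → (n - 2) / 2 ≤ hammingDist x y) →
        code.card ≤ 2 * n) ∧
    ((∃ C : Matrix (Fin n) (Fin n) ℤ,
        C.IsSymm ∧ (∀ i, C i i = 0) ∧
        (∀ i j, i ≠ j → C i j = 1 ∨ C i j = -1) ∧
        C * C.transpose = ((n : ℤ) - 1) • (1 : Matrix (Fin n) (Fin n) ℤ)) →
      ∃ code : Finset (Fin (n - 1) → Bool),
        (∀ x ∈ code, ∀ y ∈ code, x ≠ y → (n - 2) / 2 ≤ hammingDist x y) ∧
        code.card = 2 * n) := by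
  obtain ⟨K, rfl⟩ : ∃ K, n = K + 1 + 1 := ⟨n - 2, by omega⟩
  have e1 : K + 1 + 1 - 1 = K + 1 := by omega
  have e2 : K + 1 + 1 - 2 = K := by omega
  refine ⟨?_, ?_⟩
  · intro code hc
    rw [e2] at hc
    have := W_MP_7483c9_co.upper (K := K) (by omega) (by omega) code hc
    omega
  · rintro ⟨C, hsymm, hd, hpm, hC⟩
    rw [e2]
    exact W_MP_7483c9_co.lower C hsymm hd hpm hC (by omega)

end Pool.Agent.Results.MP_7483c9_co.LargeOrders
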